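import Pool.Agent.Q32.DP.NF
import Pool.Agent.Q32.DP.GEN
import Pool.Agent.Q32.DP.STEPRE
import Pool.Agent.Q32.DP.SOUND
import Pool.Agent.Q32.DP.COMPL
import Pool.Agent.Q32.DP.SEARCH

set_option autoImplicit false

/-!
# The isomorphism problem for groups built by direct and free products

Finite presentations are coded by `Pres = ℕ × List Wd`, `Wd = List (ℕ × Bool)`; `PG p` is the group
of the code `p = (n, R)`: generators `x 0, ..., x (n - 1)` and the relators in `R`, where `(i, true)` is
the letter `x i`, `(i, false)` its inverse, and letters with `i ≥ n` are deleted
(`Pool.Agent.Q223.IS.Code`). `Solvable C`, `TFree`, `Centerless`, `Indecomposable`, `FreelyIndec` and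
`Built C` are defined in `Pool.Agent.Q32.DP.Stm`, `Stm2`, `Stm3`. Isomorphism problems are promise
problems, as in Q1: the algorithm must be right on all pairs of presentations of groups in the class,
whatever it does elsewhere.

Proof. Every group in the class is a direct product of a free abelian group and of centreless directly
indecomposable groups, each in the base class or a free product of a free group and of freely
indecomposable noncyclic groups, each in the base class or again a direct product, and so on; these
decompositions are unique (Krull-Remak-Schmidt; Kurosh). So non-isomorphism has finite certificates: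
the decompositions, and labels of the factors by their isomorphism types, different labels being
justified by certificates for the factors. The algorithm searches for an isomorphism and for such a
certificate.
-/

namespace Pool.Agent.Results.MP_32d917_al.BuiltByProducts

open Pool.Agent.Q223.IS Pool.Agent.Q32.DP

/-- Let `C` be a recursively enumerable class of finite presentations of torsion-free groups with
trivial centre which are neither direct products nor free products of two nontrivial groups. If the
isomorphism problem is solvable for `C`, then it is solvable for the class `Built C` which consists of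
`C`, all finite presentations of `ℤ`, and all finite presentations of the groups which are built from the
groups in `C` and `ℤ` by one or more direct products and free products of two groups. -/
theorem result (C : Pres → Prop) (hC : REPred C)
    (hB : ∀ k, C k → TFree (PG k) ∧ Centerless (PG k) ∧ Indecomposable (PG k) ∧ FreelyIndec (PG k))
    (hS : Solvable C) : Solvable (Built C) := by
  obtain ⟨f, hf, hf'⟩ := hS
  obtain ⟨hre, hmono⟩ := STEPRE.t C f hC hf
  obtain ⟨Der, hDre, hDcl, hDind⟩ := GEN.t Fact (StepR C f) hre hmono
  have hsound : ∀ p q, Der (2, p, q) → ¬ Nonempty (PG p ≃* PG q) := fun p q h =>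
    (hDind (Mean C) (SOUND.t C f hB hf') _ h).2.2 rfl
  have hcompl := COMPL.t C f hf' Der hDcl
  have hmonoD : ∀ n, (∀ p, DD C n p → DD C (n + 1) p) ∧ (∀ p, FF C n p → FF C (n + 1) p) := by
    intro n
    induction n with
    | zero => exact ⟨fun p h => Or.inl h, fun p h => Or.inl h⟩
    | succ n ih =>
      constructor
      · rintro p (h | ⟨m, L, h1, h2, h3⟩)
        · exact Or.inl h
        · exact Or.inr ⟨m, L, fun k hk => ih.2 k (h1 k hk), h2, h3⟩
      · rintro p (h | ⟨m, L, h1, h2, h3⟩)
        · exact Or.inl h
        · exact Or.inr ⟨m, L, fun k hk => ih.1 k (h1 k hk), h2, h3⟩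
  have hmonoF : ∀ n m, n ≤ m → ∀ p, FF C n p → FF C m p := by
    intro n m h
    induction h with
    | refl => exact fun p hp => hp
    | step _ ih => exact fun p hp => (hmonoD _).2 p (ih p hp)
  have hDF : ∀ n m, n ≤ m → ∀ p, DForm C n p → DForm C m p := by
    rintro n m h p ⟨a, L, h1, h2⟩
    exact ⟨a, L, fun k hk => hmonoF n m h k (h1 k hk), h2⟩
  have hiff : ∀ p q, Built C p → Built C q → (Der (2, p, q) ↔ ¬ Nonempty (PG p ≃* PG q)) := by
    intro p q hp hq
    refine ⟨hsound p q, fun h => ?_⟩
    obtain ⟨n, hn⟩ := NF.t C hB p hp
    obtain ⟨m, hm⟩ := NF.t C hB q hq
    exact hcompl (max n m) p q (hDF n _ (le_max_left _ _) p hn) (hDF m _ (le_max_right _ _) q hm) h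
  -- search
  have hN : REPred fun z : Pres × Pres => Der (2, z.1, z.2) := by
    have hc : Computable fun z : Pres × Pres => ((2, z.1, z.2) : Fact) :=
      (Primrec.pair (Primrec.const 2) (Primrec.pair Primrec.fst Primrec.snd)).to_comp
    exact Pool.Agent.Helper926.RE.comp (p := Der) hDre hc
  exact SEARCH.solvable_of hN (fun p q h => hsound p q h)
    (fun p q hp hq h => (hiff p q hp hq).2 h)

end Pool.Agent.Results.MP_32d917_al.BuiltByProducts
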