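import Pool.Agent.Q32.DP.PROD2
import Pool.Agent.Q32.DP.PRODL
import Pool.Agent.Q32.DP.KS
import Pool.Agent.Q32.DP.NONMATCH
import Pool.Agent.Q32.DP.ALG

set_option autoImplicit false

/-!
# The isomorphism problem for direct products

Finite presentations are coded by `Pres = ℕ × List Wd`, `Wd = List (ℕ × Bool)`; `PG p` is the group
of the code `p = (n, R)`: generators `x 0, ..., x (n - 1)` and the relators in `R`, where `(i, true)` is
the letter `x i`, `(i, false)` its inverse, and letters with `i ≥ n` are deleted
(`Pool.Agent.Q223.IS.Code`). `Solvable C`, `Prods CA CK`, `PL L`, `Centerless`, `Indecomposable` are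
defined in `Pool.Agent.Q32.DP.Stm`. Isomorphism problems are promise problems, as in Q1: the
algorithm must be right on all pairs of presentations of groups in the class, whatever it does
elsewhere.

Proof of (2). Decompositions into an abelian group and centreless directly indecomposable groups are
unique up to isomorphism and order, by (1). The algorithm searches at the same time for an isomorphism
and for decompositions of the two groups together with a labelling of the factors by their isomorphism
types which shows that the groups are different.
-/

namespace Pool.Agent.Results.MP_32d917_al.DirectProducts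

open Pool.Agent.Q223.IS Pool.Agent.Q32.DP

/-- (1) Unique decomposition: if `A × K 1 × ... × K m` and `A' × L 1 × ... × L n` are isomorphic, where
`A`, `A'` are abelian and all `K i`, `L j` are centreless and directly indecomposable, then `A` and `A'`
are isomorphic, `m = n`, and `K i` is isomorphic to `L (σ i)` for a permutation `σ`.
(2) Let `CA` and `CK` be recursively enumerable classes of finite presentations, of abelian groups
and of centreless directly indecomposable groups, with solvable isomorphism problems. Then the
isomorphism problem is solvable for the class of all finite presentations of the groups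
`A × K 1 × ... × K r` with `A` in `CA`, `r ≥ 0` and all `K i` in `CK`. -/
theorem result :
    (∀ (A A' : Type) [Group A] [Group A'] (m n : ℕ) (K : Fin m → Type) (L : Fin n → Type)
      [∀ i, Group (K i)] [∀ j, Group (L j)],
      (∀ x y : A, x * y = y * x) → (∀ x y : A', x * y = y * x) →
      (∀ i, Centerless (K i)) → (∀ i, Indecomposable (K i)) →
      (∀ j, Centerless (L j)) → (∀ j, Indecomposable (L j)) →
      Nonempty (A × (∀ i, K i) ≃* A' × (∀ j, L j)) →
      Nonempty (A ≃* A') ∧ ∃ σ : Fin m ≃ Fin n, ∀ i, Nonempty (K i ≃* L (σ i))) ∧
    (∀ CA CK : Pres → Prop, REPred CA → REPred CK →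
      (∀ a, CA a → ∀ x y : PG a, x * y = y * x) →
      (∀ k, CK k → Centerless (PG k) ∧ Indecomposable (PG k)) →
      Solvable CA → Solvable CK → Solvable (Prods CA CK)) :=
  ⟨KS.t, ALG.t (PRODL.t PROD2.t) KS.t NONMATCH.t⟩

end Pool.Agent.Results.MP_32d917_al.DirectProducts
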