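import Pool.Agent.Q33.IP.Vote

/-!
The isomorphism problem for classes of finitely presented groups, with few failures.

* `Pres` is the type of the finite presentations: `(n, R)` with the number `n` of generators and the
  list `R` of relators, the letter `(i, true)` being the generator `i` and `(i, false)` its inverse.
  `Valid P`: the relators are different words in the letters with index less than `n`.
* `Gp P` is the group given by `P`.
* `Like P m R`: the list `R` gives a presentation with `m` more generators and `m` more relators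
  than `P`, of total length at most `3 m` more, of a group isomorphic to the group of `P`.
* `Fails φ P₁ P₂ m₁ m₂` is the set of the pairs of sets of relators of presentations like `P₁` and
  `P₂`, with `m₁` and `m₂` more generators, on which `φ` fails to decide isomorphism.
* `weight P m` is the product of the numbers `4 (n + i)² + 1` for `i < m`.
-/

set_option autoImplicit false

namespace Pool.Agent.Results.MP_32d917_al.FewFailuresSuffice

open Pool.Agent.Q33.IP

/-- For every class of groups which is closed under isomorphism, for example the class of the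
hierarchically hyperbolic groups, the isomorphism problem is solvable if it is solvable with few
failures. -/
theorem result :
    (∀ c : ℕ, ∃ A : ℕ, ∀ P m, A ≤ m → c ^ m < weight P m) ∧
    ∀ 𝒢 : (G : Type) → [Group G] → Prop, IsoClosed 𝒢 →
      -- failures up to one half of the weight
      ((∃ φ : Pres × Pres →. Bool, Partrec φ ∧ ∀ P₁ P₂, Valid P₁ → Valid P₂ → 𝒢 (Gp P₁) →
          𝒢 (Gp P₂) → ∃ b ∈ φ (P₁, P₂), (b = true ↔ Nonempty (Gp P₁ ≃* Gp P₂))) ↔
        ∃ (φ : Pres × Pres →. Bool) (h : Pres × Pres → ℕ), Partrec φ ∧ Computable h ∧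
          ∀ P₁ P₂, Valid P₁ → Valid P₂ → 𝒢 (Gp P₁) → 𝒢 (Gp P₂) →
            ∀ m₁ m₂, h (P₁, P₂) ≤ m₁ → h (P₁, P₂) ≤ m₂ →
              2 * (Fails φ P₁ P₂ m₁ m₂).ncard < weight P₁ m₁ * weight P₂ m₂) ∧
      -- at most exponentially many failures
      ((∃ φ : Pres × Pres →. Bool, Partrec φ ∧ ∀ P₁ P₂, Valid P₁ → Valid P₂ → 𝒢 (Gp P₁) →
          𝒢 (Gp P₂) → ∃ b ∈ φ (P₁, P₂), (b = true ↔ Nonempty (Gp P₁ ≃* Gp P₂))) ↔
        ∃ (φ : Pres × Pres →. Bool) (h : Pres × Pres → ℕ) (c : ℕ), Partrec φ ∧ Computable h ∧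
          ∀ P₁ P₂, Valid P₁ → Valid P₂ → 𝒢 (Gp P₁) → 𝒢 (Gp P₂) →
            ∀ m₁ m₂, h (P₁, P₂) ≤ m₁ → h (P₁, P₂) ≤ m₂ →
              (Fails φ P₁ P₂ m₁ m₂).ncard ≤ c ^ (m₁ + m₂)) :=
  ⟨growth, fun 𝒢 h𝒢 => ⟨few 𝒢 h𝒢, few_exp 𝒢 h𝒢⟩⟩

end Pool.Agent.Results.MP_32d917_al.FewFailuresSuffice
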