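import Pool.Agent.Q32.DP.Red
import Pool.Agent.Q32.DP.PROD2
import Pool.Agent.Q32.DP.PRODL
import Pool.Agent.Q32.DP.FREE2
import Pool.Agent.Q32.DP.Fr

set_option autoImplicit false

/-!
# The isomorphism problem for groups with prescribed direct factors

Finite presentations are coded by `Pres = ℕ × List Wd`, `Wd = List (ℕ × Bool)`; `PG p` is the group
of the code `p = (n, R)`: generators `x 0, ..., x (n - 1)` and the relators in `R`, where `(i, true)` is
the letter `x i`, `(i, false)` its inverse, and letters with `i ≥ n` are deleted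
(`Pool.Agent.Q223.IS.Code`). `PL L` is the direct product of the groups of the list `L`;
`Solvable C`, `Centerless`, `Indecomposable` are defined in `Pool.Agent.Q32.DP.Stm`. Isomorphism
problems are promise problems, as in Q1: the algorithm must be right on all pairs of presentations
of groups in the class, whatever it does elsewhere.

Proof of (1). Let `e : G × K ≃* H × K`. The projections of `e(1 × K)` to `H` and to `K`, taken back to
`G × K` and projected to `K`, decompose `K` as a direct product; so either `e(1 × K) ≤ H × 1` or the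
first coordinates of `e(1 × K)` are central, and the same holds for the inverse of `e`. In the first
case `G ≃* D × K ≃* H` with `D = e(G × 1) ⊓ (H × 1)`; if both times the second case holds, then
`e(G × 1) = H × 1`.
-/

namespace Pool.Agent.Results.MP_32d917_al.PrescribedFactors

open Pool.Agent.Q223.IS Pool.Agent.Q32.DP

/-- (1) A centreless directly indecomposable group can be cancelled in direct products with arbitrary
groups.
(2) Let `K 1, ..., K r` be finitely presented centreless directly indecomposable groups (the list
`L`). There is a primitive recursive function `P` on presentations such that the group of `P p` is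
`G × K 1 × ... × K r`, `G` the group of `p`, and two of these products are isomorphic if and only if the
groups `G` are.
(3) If a class `C` of finite presentations contains all presentations of the groups
`G × K 1 × ... × K r`, `G` in `C`, then the isomorphism problem is solvable for `C` if and only if it is
solvable for the presentations of these products.
(4) In particular, if `C` is closed under direct products with the free group `F` of rank two, the
isomorphism problem is solvable for `C` if and only if it is solvable for the products `G × F × F`, `G`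
in `C`. -/
theorem result :
    (∀ (G H K : Type) [Group G] [Group H] [Group K], Centerless K → Indecomposable K →
      Nonempty (G × K ≃* H × K) → Nonempty (G ≃* H)) ∧
    (∀ L : List Pres, (∀ k ∈ L, Centerless (PG k) ∧ Indecomposable (PG k)) →
      ∃ P : Pres → Pres, Primrec P ∧ (∀ p, Nonempty (PG (P p) ≃* PG p × PL L)) ∧
        ∀ p q, Nonempty (PG (P p) ≃* PG (P q)) ↔ Nonempty (PG p ≃* PG q)) ∧
    (∀ (C : Pres → Prop) (L : List Pres), (∀ k ∈ L, Centerless (PG k) ∧ Indecomposable (PG k)) →
      (∀ c p, C c → Nonempty (PG p ≃* PG c × PL L) → C p) →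
      (Solvable C ↔ Solvable (fun p => ∃ c, C c ∧ Nonempty (PG p ≃* PG c × PL L)))) ∧
    (∀ C : Pres → Prop, (∀ c p, C c → Nonempty (PG p ≃* PG c × FreeGroup (Fin 2)) → C p) →
      (Solvable C ↔ Solvable (fun p => ∃ c, C c ∧
        Nonempty (PG p ≃* PG c × FreeGroup (Fin 2) × FreeGroup (Fin 2))))) := by
  have hP : S_PRODL := PRODL.t PROD2.t
  refine ⟨CANC.t, ?_, ?_, ?_⟩
  · intro L hL
    obtain ⟨P, hP1, hP2⟩ := hP
    refine ⟨fun p => P (p, L), hP1.comp (Primrec.pair Primrec.id (Primrec.const L)),
      fun p => hP2 p L, fun p q => ?_⟩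
    obtain ⟨ep⟩ := hP2 p L
    obtain ⟨eq⟩ := hP2 q L
    constructor
    · rintro ⟨e⟩
      exact Red.cancelL L hL (PG p) (PG q) ⟨ep.symm.trans (e.trans eq)⟩
    · rintro ⟨e⟩
      exact ⟨ep.trans ((e.prodCongr (MulEquiv.refl _)).trans eq.symm)⟩
  · intro C L hL hC
    refine ⟨fun h => Red.mono ?_ h, fun h => Red.red hP C L hL h⟩
    rintro p ⟨c, hc, hp⟩
    exact hC c p hc hp
  · intro C hC
    obtain ⟨e2⟩ := Fr.e2
    have hL : ∀ k ∈ [((2, []) : Pres), (2, [])], Centerless (PG k) ∧ Indecomposable (PG k) := by
      intro k hk
      simp only [List.mem_cons, List.not_mem_nil, or_false, or_self] at hk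
      rw [hk]
      exact FREE2.t
    obtain ⟨eL'⟩ := Fr.eL (2, [])
    have eL : PL [((2, []) : Pres), (2, [])] ≃* FreeGroup (Fin 2) × FreeGroup (Fin 2) :=
      eL'.trans (e2.prodCongr e2)
    have hiff : ∀ p, (∃ c, C c ∧ Nonempty (PG p ≃* PG c × PL [((2, []) : Pres), (2, [])])) ↔
        (∃ c, C c ∧ Nonempty (PG p ≃* PG c × FreeGroup (Fin 2) × FreeGroup (Fin 2))) := by
      intro p
      constructor
      · rintro ⟨c, hc, ⟨e⟩⟩
        exact ⟨c, hc, ⟨e.trans ((MulEquiv.refl _).prodCongr eL)⟩⟩
      · rintro ⟨c, hc, ⟨e⟩⟩
        exact ⟨c, hc, ⟨e.trans ((MulEquiv.refl _).prodCongr eL.symm)⟩⟩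
    constructor
    · refine fun h => Red.mono ?_ h
      rintro p ⟨c, hc, ⟨e⟩⟩
      -- through a presentation of `G × F`
      obtain ⟨P, -, hP2⟩ := PROD2.t
      obtain ⟨e1⟩ := hP2 c (2, [])
      have h1 : C (P c (2, [])) := hC c _ hc ⟨e1.trans ((MulEquiv.refl _).prodCongr e2)⟩
      refine hC _ p h1 ⟨e.trans ?_⟩
      exact MulEquiv.prodAssoc.symm.trans
        ((e1.trans ((MulEquiv.refl _).prodCongr e2)).symm.prodCongr (MulEquiv.refl _))
    · intro h
      exact Red.red hP C _ hL (Red.mono (fun p hp => (hiff p).1 hp) h)

end Pool.Agent.Results.MP_32d917_al.PrescribedFactors
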